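import Mathlib
import Pool.Agent.Helper281.Sc.Gen

set_option autoImplicit false

namespace Pool.Agent.Results.MP_52c225_lc.Embeddings

open Set Pool.Agent.Helper281.Sc

universe u

/-- `E` Borel embeds into `F`: there is an injective Borel reduction. -/
def BorelEmbeds {X Y : Type u} [MeasurableSpace X] [MeasurableSpace Y] (E : X → X → Prop)
    (F : Y → Y → Prop) : Prop :=
  ∃ f : X → Y, Measurable f ∧ Function.Injective f ∧ ∀ x x', E x x' ↔ F (f x) (f x')

/-- `E` is structurable by countable contractible simplicial complexes of dimension at most `n`. -/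
def StructurableLE {X : Type u} [MeasurableSpace X] (n : ℕ) (E : X → X → Prop) : Prop :=
  ∃ S : Set (Finset X), Stru n E S

/-- `E` is `C_n`-structurable: structurable by countable contractible simplicial complexes of
dimension exactly `n` (on every class there is a simplex with `n + 1` vertices, and no simplex has
more vertices). -/
def Structurable {X : Type u} [MeasurableSpace X] (n : ℕ) (E : X → X → Prop) : Prop :=
  ∃ S : Set (Finset X), Stru n E S ∧ ∀ x, ∃ s ∈ S, s.card = n + 1 ∧ ∀ y ∈ s, E x y

/-- Structurability by contractible `n`-dimensional complexes passes to Borel embedded countable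
Borel equivalence relations, for every `n ≥ 2`. If dimension `n` is read as dimension exactly `n`,
the (necessary) condition is that every class has at least `n + 1` points. -/
theorem result (n : ℕ) (hn : 2 ≤ n) {X Y : Type u} [MeasurableSpace X] [StandardBorelSpace X]
    [MeasurableSpace Y] [StandardBorelSpace Y] (E : X → X → Prop) (F : Y → Y → Prop)
    (hE : IsCBER E) (hF : IsCBER F) (hEF : BorelEmbeds E F) :
    (StructurableLE n F → StructurableLE n E) ∧
      (Structurable n F → (Structurable n E ↔
        ∀ x, ∃ t : Finset X, t.card = n + 1 ∧ ∀ y ∈ t, E x y)) := by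
  obtain ⟨f, hf, hinj, hred⟩ := hEF
  constructor
  · rintro ⟨K, hK⟩
    obtain ⟨L, hL, -⟩ := general_case hE hF f hf hinj hred n hn K hK
    exact ⟨L, hL⟩
  · rintro ⟨K, hK, hK2⟩
    obtain ⟨L, hL, hL2⟩ := general_case hE hF f hf hinj hred n hn K hK
    constructor
    · rintro ⟨S, hS, hS2⟩ x
      obtain ⟨s, _, hs1, hs2⟩ := hS2 x
      exact ⟨s, hs1, hs2⟩
    · intro h
      exact ⟨L, hL, fun x => hL2 x (hK2 (f x)) (h x)⟩

end Pool.Agent.Results.MP_52c225_lc.Embeddings
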